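import Mathlib

/-!
Compact semitopological semigroups in which any two closed right ideals meet.
-/

set_option autoImplicit false

open Filter Topology Set

namespace Pool.Agent.R192.WP

section Semi

variable {G : Type*} [Semigroup G] [TopologicalSpace G] [CompactSpace G] [T2Space G]
  [SeparatelyContinuousMul G]

/-- closed right ideals -/
def RI (R : Set G) : Prop := IsClosed R ∧ R.Nonempty ∧ ∀ x ∈ R, ∀ g, x * g ∈ R

/-- left translate of a continuous function -/
def lt (a : G) (h : C(G, ℝ)) : C(G, ℝ) := h.comp ⟨fun x => a * x, continuous_const_mul a⟩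

omit [CompactSpace G] [T2Space G] in
@[simp] lemma lt_apply (a : G) (h : C(G, ℝ)) (x : G) : lt a h x = h (a * x) := rfl

lemma inter_nonempty (M : C(G, ℝ) →L[ℝ] ℝ) (h1 : M 1 = 1) (hM : ∀ a h, M (lt a h) = M h)
    {R R' : Set G} (hR : RI R) (hR' : RI R') : (R ∩ R').Nonempty := by
  by_contra hcon
  rw [Set.not_nonempty_iff_eq_empty, ← Set.disjoint_iff_inter_eq_empty] at hcon
  obtain ⟨h, hh0, hh1, -⟩ := exists_continuous_zero_one_of_isClosed hR.1 hR'.1 hcon
  obtain ⟨a, ha⟩ := hR.2.1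
  obtain ⟨b, hb⟩ := hR'.2.1
  have e1 : lt a h = 0 := by
    ext x
    exact hh0 (hR.2.2 a ha x)
  have e2 : lt b h = 1 := by
    ext x
    exact hh1 (hR'.2.2 b hb x)
  have e3 := hM a h
  have e4 := hM b h
  rw [e1, map_zero] at e3
  rw [e2, h1] at e4
  linarith

omit [T2Space G] in
lemma ri_image {R : Set G} (f : G) (hR : RI R) [T2Space G] : RI ((fun x => f * x) '' R) := by
  refine ⟨(hR.1.isCompact.image (continuous_const_mul f)).isClosed, hR.2.1.image _, ?_⟩
  rintro _ ⟨x, hx, rfl⟩ g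
  exact ⟨x * g, hR.2.2 x hx g, (mul_assoc _ _ _).symm⟩

theorem exists_idem [Nonempty G] (hint : ∀ R R' : Set G, RI R → RI R' → (R ∩ R').Nonempty) :
    ∃ e : G, e * e = e ∧ (∀ f, e * (f * e) = f * e) ∧ ∀ f, ∃ g, g * e = g ∧ f * g = e := by
  have huniv : RI (univ : Set G) := ⟨isClosed_univ, univ_nonempty, fun _ _ _ => mem_univ _⟩
  let F : Set (Set G) := {R | RI R}
  have hne : Nonempty F := ⟨⟨univ, huniv⟩⟩
  have hI : (⋂₀ F).Nonempty := by
    apply IsCompact.nonempty_sInter_of_directed_nonempty_isCompact_isClosed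
    · intro R hR R' hR'
      refine ⟨R ∩ R', ⟨hR.1.inter hR'.1, hint R R' hR hR', fun x hx g =>
        ⟨hR.2.2 x hx.1 g, hR'.2.2 x hx.2 g⟩⟩, inter_subset_left, inter_subset_right⟩
    · exact fun R hR => hR.2.1
    · exact fun R hR => hR.1.isCompact
    · exact fun R hR => hR.1
  set I := ⋂₀ F with hIdef
  have hIle : ∀ R, RI R → I ⊆ R := fun R hR => sInter_subset_of_mem hR
  have hIR : RI I := by
    refine ⟨isClosed_sInter fun R hR => hR.1, hI, fun x hx g => ?_⟩
    intro R hR
    exact hR.2.2 x (hx R hR) g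
  have hgen : ∀ f : G, RI (Set.range fun x => f * x) := by
    intro f
    have := ri_image f huniv
    rwa [image_univ] at this
  have hfI : ∀ f, ∀ y ∈ I, f * y ∈ I := by
    intro f y hy
    obtain ⟨i, hi⟩ := hI
    obtain ⟨x, hx, hxi⟩ := hIle _ (ri_image f hIR) hi
    simp only at hxi
    obtain ⟨g, hg⟩ := hIle _ (hgen x) hy
    simp only at hg
    rw [← hg, ← mul_assoc, hxi]
    exact hIR.2.2 i hi g
  obtain ⟨e, heI, hee⟩ := exists_idempotent_in_compact_subsemigroup
    (fun r : G => continuous_mul_const r) I hI hIR.1.isCompact (fun x hx y _ => hIR.2.2 x hx y)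
  refine ⟨e, hee, fun f => ?_, fun f => ?_⟩
  · obtain ⟨g, hg⟩ := hIle _ (hgen e) (hfI f e heI)
    simp only at hg
    rw [← hg, ← mul_assoc, hee]
  · obtain ⟨g, hg⟩ := hIle _ (hgen f) heI
    simp only at hg
    refine ⟨g * e, by rw [mul_assoc, hee], by rw [← mul_assoc, hg, hee]⟩

end Semi

section Grp

variable {G : Type*} [Semigroup G]

/-- the left ideal generated by an idempotent -/
def Lid (e : G) : Type _ := {f : G // f * e = f}

/-- the group structure -/
@[reducible] noncomputable def lidGroup (e : G) (hee : e * e = e)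
    (hinv : ∀ f, ∃ g, g * e = g ∧ f * g = e) : Group (Lid e) :=
  letI : Mul (Lid e) := ⟨fun f g => ⟨f.1 * g.1, by rw [mul_assoc, g.2]⟩⟩
  letI : One (Lid e) := ⟨⟨e, hee⟩⟩
  letI : Inv (Lid e) := ⟨fun f => ⟨(hinv f.1).choose, (hinv f.1).choose_spec.1⟩⟩
  Group.ofRightAxioms (fun a b c => Subtype.ext (mul_assoc a.1 b.1 c.1))
    (fun a => Subtype.ext a.2) (fun a => Subtype.ext (hinv a.1).choose_spec.2)

end Grp

end Pool.Agent.R192.WP
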