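import Mathlib

/-!
Total boundedness of orbits of compact semitopological groups acting isometrically with weakly
continuous orbit maps.
-/

set_option autoImplicit false

open Filter Topology Set

namespace Pool.Agent.R192.WP

section WeakFacts

variable {𝕂 E : Type*} [RCLike 𝕂] [AddCommGroup E] [Module 𝕂 E] [Module ℝ E]
  [IsScalarTower ℝ 𝕂 E] [TopologicalSpace E] [IsTopologicalAddGroup E] [ContinuousSMul 𝕂 E]
  [LocallyConvexSpace ℝ E]

/-- the identity from the weak space to the space -/
noncomputable abbrev fr (w : WeakSpace 𝕂 E) : E := (toWeakSpace 𝕂 E).symm w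

lemma isClosed_weak_image {s : Set E} (hs : Convex ℝ s) (hc : IsClosed s) :
    IsClosed (toWeakSpace 𝕂 E '' s) := by
  have := hs.toWeakSpace_closure 𝕂
  rw [hc.closure_eq] at this
  rw [this]
  exact isClosed_closure

lemma isClosed_weak_ball (q : Seminorm ℝ E) (hq : Continuous q) (v : E) (r : ℝ) :
    IsClosed {w : WeakSpace 𝕂 E | q (fr w - v) ≤ r} := by
  have h1 : IsClosed {x : E | q (x - v) ≤ r} :=
    isClosed_le (hq.comp (continuous_id.sub continuous_const)) continuous_const
  have h2 : Convex ℝ {x : E | q (x - v) ≤ r} := q.convex_closedBall v r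
  have h3 := isClosed_weak_image (𝕂 := 𝕂) h2 h1
  convert h3 using 1
  ext w
  simp only [mem_ofPred_eq, mem_image]
  constructor
  · intro h
    exact ⟨fr w, h, by simp [fr]⟩
  · rintro ⟨x, hx, rfl⟩
    simpa [fr] using hx

end WeakFacts

section TB

variable {G : Type*} [Group G] [TopologicalSpace G] [CompactSpace G] [T2Space G]
  [SeparatelyContinuousMul G]

omit [CompactSpace G] [T2Space G] in
lemma mul_mem_closure (Γ : Subgroup G) {x y : G} (hx : x ∈ closure (Γ : Set G))
    (hy : y ∈ closure (Γ : Set G)) : x * y ∈ closure (Γ : Set G) := by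
  have h1 : ∀ g ∈ Γ, g * y ∈ closure (Γ : Set G) := by
    intro g hg
    have h2 : MapsTo (fun z => g * z) (closure (Γ : Set G)) (closure (Γ : Set G)) :=
      (show MapsTo (fun z => g * z) (Γ : Set G) (Γ : Set G) from
        fun z hz => Γ.mul_mem hg hz).closure (continuous_const_mul g)
    exact h2 hy
  have h3 : MapsTo (fun z => z * y) (closure (Γ : Set G)) (closure (closure (Γ : Set G))) :=
    (show MapsTo (fun z => z * y) (Γ : Set G) (closure (Γ : Set G)) from
      fun z hz => h1 z hz).closure (continuous_mul_const y)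
  rw [closure_closure] at h3
  exact h3 hx

lemma inv_mem_closure (Γ : Subgroup G) {b : G} (hb : b ∈ closure (Γ : Set G)) :
    b⁻¹ ∈ closure (Γ : Set G) := by
  have h1 : IsCompact ((fun z => b * z) '' closure (Γ : Set G)) :=
    isClosed_closure.isCompact.image (continuous_const_mul b)
  obtain ⟨u, hu, huu⟩ := exists_idempotent_in_compact_subsemigroup
    (fun r : G => continuous_mul_const r) ((fun z => b * z) '' closure (Γ : Set G))
    ⟨b * b, b, hb, rfl⟩ h1 (by
      rintro _ ⟨x, hx, rfl⟩ _ ⟨y, hy, rfl⟩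
      refine ⟨x * (b * y), mul_mem_closure Γ hx (mul_mem_closure Γ hb hy), ?_⟩
      simp [mul_assoc])
  have hu1 : u = 1 := by simpa using huu
  obtain ⟨x, hx, hxu⟩ := hu
  simp only at hxu
  rw [hu1] at hxu
  rw [inv_eq_of_mul_eq_one_right hxu]
  exact hx

/-- the closure of a subgroup in a compact semitopological group is a subgroup -/
def clSub (Γ : Subgroup G) : Subgroup G where
  carrier := closure (Γ : Set G)
  mul_mem' := mul_mem_closure Γ
  one_mem' := subset_closure Γ.one_mem
  inv_mem' := inv_mem_closure Γ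

variable {𝕂 E : Type*} [RCLike 𝕂] [AddCommGroup E] [Module 𝕂 E] [Module ℝ E]
  [IsScalarTower ℝ 𝕂 E] [TopologicalSpace E] [IsTopologicalAddGroup E] [ContinuousSMul 𝕂 E]
  [LocallyConvexSpace ℝ E]

theorem tot_bdd (q : Seminorm ℝ E) (hq : Continuous q) (o : G → WeakSpace 𝕂 E)
    (ho : Continuous o)
    (hiso : ∀ g a b, q (fr (o (g * a)) - fr (o (g * b))) = q (fr (o a) - fr (o b)))
    {ε : ℝ} (hε : 0 < ε) :
    ∃ F : Finset G, ∀ a, ∃ b ∈ F, q (fr (o a) - fr (o b)) ≤ ε := by
  classical
  by_contra hcon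
  push Not at hcon
  obtain ⟨a, -, ha⟩ := exists_seq_of_forall_finset_exists (fun _ : G => True)
    (fun x y => ε < q (fr (o y) - fr (o x))) (fun s _ => by
      obtain ⟨y, hy⟩ := hcon s
      exact ⟨y, trivial, fun x hx => hy x hx⟩)
  -- the countable subgroup
  let Φ : FreeGroup ℕ →* G := FreeGroup.lift a
  let Γ : Subgroup G := Φ.range
  have hΓ : (Γ : Set G).Countable := by
    have : (Γ : Set G) = Set.range Φ := MonoidHom.coe_range Φ
    rw [this]
    haveI : Countable (FreeGroup ℕ) := Quot.mk_surjective.countable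
    exact countable_range _
  have haΓ : ∀ n, a n ∈ Γ := fun n => ⟨FreeGroup.of n, by simp [Φ]⟩
  let G' : Subgroup G := clSub Γ
  have hG' : IsClosed (G' : Set G) := isClosed_closure
  -- the separable set
  let M0 : Submodule ℝ E := Submodule.span ℝ ((fun g => fr (o g)) '' (Γ : Set G))
  haveI : ContinuousSMul ℝ E := IsScalarTower.continuousSMul 𝕂
  have hM0 : TopologicalSpace.IsSeparable (M0 : Set E) :=
    TopologicalSpace.IsSeparable.span (hΓ.image _).isSeparable
  obtain ⟨c, hc, hMc⟩ := hM0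
  have hoG : ∀ x ∈ G', ∀ δ : ℝ, 0 < δ → ∃ w ∈ c, q (fr (o x) - w) < δ := by
    intro x hx δ hδ
    have h1 : o x ∈ closure (o '' (Γ : Set G)) := image_closure_subset_closure_image ho ⟨x, hx, rfl⟩
    have h2 : o '' (Γ : Set G) ⊆ toWeakSpace 𝕂 E '' (M0 : Set E) := by
      rintro _ ⟨g, hg, rfl⟩
      exact ⟨fr (o g), Submodule.subset_span ⟨g, hg, rfl⟩, by simp [fr]⟩
    have h3 : o x ∈ toWeakSpace 𝕂 E '' closure (M0 : Set E) := by
      rw [(M0.convex).toWeakSpace_closure 𝕂]
      exact closure_mono h2 h1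
    obtain ⟨y, hy, hyx⟩ := h3
    have h4 : fr (o x) = y := by rw [← hyx]; simp [fr]
    rw [h4]
    have h5 : y ∈ closure c := by
      have := closure_mono hMc hy
      rwa [closure_closure] at this
    have h6 : {w : E | q (y - w) < δ} ∈ 𝓝 y := by
      have h7 : Continuous fun w => q (y - w) := hq.comp (continuous_const.sub continuous_id)
      apply (isOpen_lt h7 continuous_const).mem_nhds
      simpa using hδ
    obtain ⟨w, hw, hwc⟩ := mem_closure_iff_nhds.1 h5 _ h6
    exact ⟨w, hwc, hw⟩
  -- Baire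
  haveI : CompactSpace G' := isCompact_iff_compactSpace.1 hG'.isCompact
  haveI : Countable c := hc.to_subtype
  let f : c → Set G' := fun w => {x | q (fr (o x) - w) ≤ ε / 3}
  have hfc : ∀ w, IsClosed (f w) := fun w =>
    (isClosed_weak_ball (𝕂 := 𝕂) q hq (w : E) (ε / 3)).preimage
      (ho.comp continuous_subtype_val)
  have hfU : ⋃ w, f w = univ := by
    rw [eq_univ_iff_forall]
    intro x
    obtain ⟨w, hwc, hw⟩ := hoG x x.2 (ε / 3) (by positivity)
    exact mem_iUnion.2 ⟨⟨w, hwc⟩, hw.le⟩
  obtain ⟨w, v0, hv0⟩ := nonempty_interior_of_iUnion_of_closed hfc hfU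
  -- translates
  have hcont : ∀ g : G', Continuous fun x : G' => g * x := fun g =>
    Continuous.subtype_mk ((continuous_const_mul (g : G)).comp continuous_subtype_val) _
  let U : G' → Set G' := fun x => (fun y => (x * v0⁻¹)⁻¹ * y) ⁻¹' interior (f w)
  have hUo : ∀ x, IsOpen (U x) := fun x => isOpen_interior.preimage (hcont _)
  have hUx : ∀ x, x ∈ U x := by
    intro x
    show (x * v0⁻¹)⁻¹ * x ∈ interior (f w)
    have : (x * v0⁻¹)⁻¹ * x = v0 := by simp
    rw [this]
    exact hv0
  obtain ⟨t, ht⟩ := isCompact_univ.elim_finite_subcover U hUo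
    (fun x _ => mem_iUnion.2 ⟨x, hUx x⟩)
  have hch : ∀ n : ℕ, ∃ i ∈ t, (⟨a n, subset_closure (haΓ n)⟩ : G') ∈ U i := by
    intro n
    have := ht (mem_univ (⟨a n, subset_closure (haΓ n)⟩ : G'))
    simpa using this
  choose i hit hiU using hch
  obtain ⟨n, m, hnm, hinm⟩ := Finite.exists_ne_map_eq_of_infinite (fun n : ℕ => (⟨i n, hit n⟩ : t))
  have hinm' : i n = i m := congrArg Subtype.val hinm
  have hfin : ∀ n m, i n = i m → q (fr (o (a n)) - fr (o (a m))) ≤ 2 * (ε / 3) := by
    intro n m hnm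
    have h1 := interior_subset (hiU n)
    have h2 := interior_subset (hiU m)
    rw [hnm] at h1
    simp only [f, mem_ofPred_eq] at h1 h2
    rw [← hiso (((i m * v0⁻¹)⁻¹ : G') : G) (a n) (a m)]
    have h3 : ∀ x y z : E, q (x - y) ≤ q (x - z) + q (y - z) := by
      intro x y z
      have := map_sub_le_add q (x - z) (y - z)
      rwa [sub_sub_sub_cancel_right] at this
    refine (h3 _ _ (w : E)).trans ?_
    have h4 : q (fr (o ((((i m * v0⁻¹)⁻¹ : G') : G) * a n)) - w) ≤ ε / 3 := h1
    have h5 : q (fr (o ((((i m * v0⁻¹)⁻¹ : G') : G) * a m)) - w) ≤ ε / 3 := h2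
    linarith
  rcases lt_or_gt_of_ne hnm with h | h
  · have h1 := ha n m h
    have h2 := hfin m n hinm'.symm
    linarith
  · have h1 := ha m n h
    have h2 := hfin n m hinm'
    linarith

end TB

end Pool.Agent.R192.WP
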