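import Mathlib

/-!
Bounded pointwise null sequences of continuous functions on a compact space are weakly null:
elementary proof without measures.
-/

set_option autoImplicit false

open Filter Topology Set

namespace Pool.Agent.R192.WP

section Lam

variable {K : Type*} [TopologicalSpace K] [CompactSpace K]

/-- the continuous functions dominated by `f` -/
def dom (f : C(K, ℝ)) : Set C(K, ℝ) := {g | ∀ y, |g y| ≤ f y}

/-- the total variation of a functional, evaluated at a nonnegative function -/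
noncomputable def lam (ψ : C(K, ℝ) →L[ℝ] ℝ) (f : C(K, ℝ)) : ℝ := sSup (ψ '' dom f)

variable (ψ : C(K, ℝ) →L[ℝ] ℝ)

lemma norm_le_of_dom {f g : C(K, ℝ)} (hg : g ∈ dom f) : ‖g‖ ≤ ‖f‖ := by
  rw [ContinuousMap.norm_le _ (norm_nonneg _)]
  intro y
  rw [Real.norm_eq_abs]
  exact ((hg y).trans (le_abs_self _)).trans (f.norm_coe_le_norm y)

lemma lam_bdd (f : C(K, ℝ)) : BddAbove (ψ '' dom f) := by
  refine ⟨‖ψ‖ * ‖f‖, ?_⟩
  rintro _ ⟨g, hg, rfl⟩
  calc ψ g ≤ ‖ψ g‖ := Real.le_norm_self _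
    _ ≤ ‖ψ‖ * ‖g‖ := ψ.le_opNorm g
    _ ≤ ‖ψ‖ * ‖f‖ := by
      have := norm_le_of_dom hg
      gcongr

lemma zero_mem_dom {f : C(K, ℝ)} (hf : ∀ y, 0 ≤ f y) : (0 : C(K, ℝ)) ∈ dom f := by
  intro y; simpa using hf y

lemma le_lam {f g : C(K, ℝ)} (hg : g ∈ dom f) : ψ g ≤ lam ψ f :=
  le_csSup (lam_bdd ψ f) ⟨g, hg, rfl⟩

lemma lam_le {f : C(K, ℝ)} (hf : ∀ y, 0 ≤ f y) {c : ℝ} (h : ∀ g ∈ dom f, ψ g ≤ c) :
    lam ψ f ≤ c := by
  apply csSup_le (⟨_, ⟨0, zero_mem_dom hf, rfl⟩⟩ : (ψ '' dom f).Nonempty)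
  rintro _ ⟨g, hg, rfl⟩
  exact h g hg

lemma lam_mono {f f' : C(K, ℝ)} (hf : ∀ y, 0 ≤ f y) (h : ∀ y, f y ≤ f' y) :
    lam ψ f ≤ lam ψ f' :=
  lam_le ψ hf fun g hg => le_lam ψ fun y => (hg y).trans (h y)

lemma lam_nonneg {f : C(K, ℝ)} (hf : ∀ y, 0 ≤ f y) : 0 ≤ lam ψ f := by
  have := le_lam ψ (zero_mem_dom hf)
  simpa using this

lemma lam_le_norm {f : C(K, ℝ)} (hf : ∀ y, 0 ≤ f y) : lam ψ f ≤ ‖ψ‖ * ‖f‖ := by
  apply lam_le ψ hf
  intro g hg
  calc ψ g ≤ ‖ψ g‖ := Real.le_norm_self _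
    _ ≤ ‖ψ‖ * ‖g‖ := ψ.le_opNorm g
    _ ≤ ‖ψ‖ * ‖f‖ := by
      have := norm_le_of_dom hg
      gcongr

lemma abs_le_lam (f : C(K, ℝ)) {g : C(K, ℝ)} (hg : ∀ y, |f y| ≤ g y) : |ψ f| ≤ lam ψ g := by
  rw [abs_le]
  constructor
  · have : ψ (-f) ≤ lam ψ g := le_lam ψ fun y => by simpa using hg y
    rw [map_neg] at this
    linarith
  · exact le_lam ψ hg

lemma lam_add {f f' : C(K, ℝ)} (hf : ∀ y, 0 ≤ f y) (hf' : ∀ y, 0 ≤ f' y) :
    lam ψ (f + f') = lam ψ f + lam ψ f' := by
  apply le_antisymm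
  · apply lam_le ψ (fun y => add_nonneg (hf y) (hf' y))
    intro g hg
    have h1 : (-f) ⊔ (g ⊓ f) ∈ dom f := by
      intro y
      have := hf y
      simp only [ContinuousMap.sup_apply, ContinuousMap.inf_apply, ContinuousMap.neg_apply]
      rw [abs_le]
      constructor
      · exact le_max_left _ _
      · exact max_le (by linarith) (min_le_right _ _)
    have h2 : g - ((-f) ⊔ (g ⊓ f)) ∈ dom f' := by
      intro y
      have h3 := hg y
      have h4 := hf y
      have h5 := hf' y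
      simp only [ContinuousMap.add_apply, ContinuousMap.sub_apply, ContinuousMap.sup_apply,
        ContinuousMap.inf_apply, ContinuousMap.neg_apply] at h3 ⊢
      rw [abs_le] at h3 ⊢
      rcases le_total (g y) (f y) with h | h
      · rw [min_eq_left h]
        rcases le_total (-(f y)) (g y) with h' | h'
        · rw [max_eq_right h']
          constructor <;> linarith
        · rw [max_eq_left h']
          constructor <;> linarith
      · rw [min_eq_right h, max_eq_right (by linarith)]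
        constructor <;> linarith
    have h6 := le_lam ψ h1
    have h7 := le_lam ψ h2
    rw [map_sub] at h7
    linarith
  · have h1 : ∀ g ∈ dom f, ∀ g' ∈ dom f', ψ g + ψ g' ≤ lam ψ (f + f') := by
      intro g hg g' hg'
      rw [← map_add]
      apply le_lam
      intro y
      calc |(g + g') y| ≤ |g y| + |g' y| := abs_add_le _ _
        _ ≤ f y + f' y := add_le_add (hg y) (hg' y)
    have h2 : ∀ g' ∈ dom f', lam ψ f ≤ lam ψ (f + f') - ψ g' := fun g' hg' =>
      lam_le ψ hf fun g hg => by linarith [h1 g hg g' hg']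
    have h3 : lam ψ f' ≤ lam ψ (f + f') - lam ψ f :=
      lam_le ψ hf' fun g' hg' => by linarith [h2 g' hg']
    linarith

lemma lam_sup_inf {f f' : C(K, ℝ)} (hf : ∀ y, 0 ≤ f y) (hf' : ∀ y, 0 ≤ f' y) :
    lam ψ (f ⊓ f') + lam ψ (f ⊔ f') = lam ψ f + lam ψ f' := by
  rw [← lam_add ψ hf hf', ← lam_add ψ]
  · congr 1
    ext y
    simp only [ContinuousMap.add_apply, ContinuousMap.sup_apply, ContinuousMap.inf_apply]
    exact min_add_max _ _
  · intro y
    exact le_min (hf y) (hf' y)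
  · intro y
    exact (hf y).trans (le_max_left _ _)

/-- blocks of suprema -/
noncomputable def bl (g : ℕ → C(K, ℝ)) (n : ℕ) : ℕ → C(K, ℝ)
  | 0 => g n
  | j + 1 => bl g n j ⊔ g (n + j + 1)

lemma bl_ge (g : ℕ → C(K, ℝ)) (n : ℕ) : ∀ (j k : ℕ), k ≤ j → ∀ y, g (n + k) y ≤ bl g n j y := by
  intro j
  induction j with
  | zero => intro k hk y; obtain rfl : k = 0 := by omega
            simp [bl]
  | succ j ih =>
    intro k hk y
    rcases Nat.lt_or_ge k (j + 1) with h | h
    · exact (ih k (by omega) y).trans (le_max_left _ _)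
    · obtain rfl : k = j + 1 := by omega
      exact le_max_right _ _

lemma bl_le (g : ℕ → C(K, ℝ)) (n : ℕ) (y : K) (c : ℝ) : ∀ j : ℕ,
    (∀ k, k ≤ j → g (n + k) y ≤ c) → bl g n j y ≤ c := by
  intro j
  induction j with
  | zero => intro h; exact h 0 le_rfl
  | succ j ih =>
    intro h
    exact max_le (ih fun k hk => h k (by omega)) (h (j + 1) le_rfl)

lemma bl_nonneg {g : ℕ → C(K, ℝ)} (hg : ∀ n y, 0 ≤ g n y) (n j : ℕ) (y : K) : 0 ≤ bl g n j y :=
  (hg (n + 0) y).trans (bl_ge g n j 0 (Nat.zero_le _) y)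

lemma bl_sup_le (g : ℕ → C(K, ℝ)) (n i j : ℕ) (y : K) :
    (bl g n i ⊔ bl g (n + 1) j) y ≤ bl g n (max i (j + 1)) y := by
  apply max_le
  · apply bl_le
    intro k hk
    exact bl_ge g n _ k (hk.trans (le_max_left _ _)) y
  · apply bl_le
    intro k hk
    have := bl_ge g n (max i (j + 1)) (k + 1) (le_trans (by omega) (le_max_right _ _)) y
    rwa [show n + 1 + k = n + (k + 1) by ring]

theorem lam_tendsto {g : ℕ → C(K, ℝ)} {B : ℝ} (hg : ∀ n y, 0 ≤ g n y) (hB : ∀ n y, g n y ≤ B)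
    (h0 : ∀ y, Tendsto (fun n => g n y) atTop (𝓝 0)) :
    Tendsto (fun n => lam ψ (g n)) atTop (𝓝 0) := by
  rcases isEmpty_or_nonempty K with hK | ⟨⟨y0⟩⟩
  · have : ∀ n, g n = 0 := fun n => by ext y; exact (hK.false y).elim
    have h2 : lam ψ (0 : C(K, ℝ)) = 0 := by
      apply le_antisymm
      · simpa using lam_le_norm ψ (f := 0) (by intro y; simp)
      · exact lam_nonneg ψ (by intro y; simp)
    simp [this, h2]
  have hB0 : 0 ≤ B := (hg 0 y0).trans (hB 0 y0)
  have hbB : ∀ n j, lam ψ (bl g n j) ≤ ‖ψ‖ * B := by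
    intro n j
    refine (lam_le_norm ψ (bl_nonneg hg n j)).trans ?_
    have h1 : ‖bl g n j‖ ≤ B := by
      rw [ContinuousMap.norm_le _ hB0]
      intro y
      rw [Real.norm_eq_abs, abs_of_nonneg (bl_nonneg hg n j y)]
      exact bl_le g n y B j fun k _ => hB _ y
    gcongr
  have hbdd : ∀ n, BddAbove (Set.range fun j => lam ψ (bl g n j)) := fun n =>
    ⟨‖ψ‖ * B, by rintro _ ⟨j, rfl⟩; exact hbB n j⟩
  set s : ℕ → ℝ := fun n => ⨆ j, lam ψ (bl g n j) with hs
  have hle_s : ∀ n j, lam ψ (bl g n j) ≤ s n := fun n j => le_ciSup (hbdd n) j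
  rw [Metric.tendsto_atTop]
  intro ε hε
  have hch : ∀ n, ∃ j, s n - ε / 4 / 2 ^ n < lam ψ (bl g n j) := by
    intro n
    apply exists_lt_of_lt_ciSup
    have : 0 < ε / 4 / 2 ^ n := by positivity
    linarith
  choose J hJ using hch
  let v : ℕ → C(K, ℝ) := fun N => Nat.rec (bl g 0 (J 0)) (fun N vN => vN ⊓ bl g (N + 1) (J (N + 1))) N
  have hv0 : v 0 = bl g 0 (J 0) := rfl
  have hvs : ∀ N, v (N + 1) = v N ⊓ bl g (N + 1) (J (N + 1)) := fun N => rfl
  have hvle : ∀ N, ∀ y, v N y ≤ bl g N (J N) y := by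
    intro N y
    cases N with
    | zero => exact le_rfl
    | succ N => rw [hvs]; exact min_le_right _ _
  have hvn : ∀ N y, 0 ≤ v N y := by
    intro N
    induction N with
    | zero => intro y; exact bl_nonneg hg _ _ y
    | succ N ih => intro y; rw [hvs]; exact le_min (ih y) (bl_nonneg hg _ _ y)
  have hanti : Antitone v := antitone_nat_of_succ_le fun N => by
    rw [hvs]
    exact inf_le_left
  have hmain : ∀ N, s N - ε / 4 * (2 - 1 / 2 ^ N) ≤ lam ψ (v N) := by
    intro N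
    induction N with
    | zero =>
      have := hJ 0
      simp only [pow_zero, div_one] at this ⊢
      rw [hv0]
      linarith
    | succ N ih =>
      have h1 := lam_sup_inf ψ (hvn N) (bl_nonneg hg (N + 1) (J (N + 1)))
      rw [← hvs] at h1
      have h2 : lam ψ (v N ⊔ bl g (N + 1) (J (N + 1))) ≤ s N := by
        refine le_trans (lam_mono ψ (f' := bl g N (max (J N) (J (N + 1) + 1))) ?_ ?_) (hle_s N _)
        · intro y; exact (hvn N y).trans (le_max_left _ _)
        · intro y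
          refine le_trans ?_ (bl_sup_le g N (J N) (J (N + 1)) y)
          exact max_le_max (hvle N y) le_rfl
      have h3 := hJ (N + 1)
      have h4 : ε / 4 * (2 - 1 / 2 ^ (N + 1)) = ε / 4 * (2 - 1 / 2 ^ N) + ε / 4 / 2 ^ (N + 1) := by
        rw [pow_succ]
        field_simp
        ring
      linarith
  have hvt : Tendsto v atTop (𝓝 0) := by
    apply ContinuousMap.tendsto_of_antitone_of_pointwise hanti
    intro y
    rw [ContinuousMap.zero_apply, Metric.tendsto_atTop]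
    intro δ hδ
    obtain ⟨N0, hN0⟩ := (Metric.tendsto_atTop.1 (h0 y)) (δ / 2) (by positivity)
    refine ⟨N0, fun N hN => ?_⟩
    rw [Real.dist_eq, sub_zero, abs_of_nonneg (hvn N y)]
    refine lt_of_le_of_lt (hvle N y) (lt_of_le_of_lt (bl_le g N y (δ / 2) _ ?_) (by linarith))
    intro k _
    have := hN0 (N + k) (by omega)
    rw [Real.dist_eq, sub_zero, abs_of_nonneg (hg _ y)] at this
    exact this.le
  have hvt2 : Tendsto (fun N => ‖ψ‖ * ‖v N‖) atTop (𝓝 0) := by
    have h1 : Tendsto (fun N => ‖v N‖) atTop (𝓝 0) := by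
      have := hvt.norm
      simpa using this
    simpa using h1.const_mul ‖ψ‖
  obtain ⟨N0, hN0⟩ := (Metric.tendsto_atTop.1 hvt2) (ε / 4) (by positivity)
  refine ⟨N0, fun N hN => ?_⟩
  have h1 := hN0 N hN
  rw [Real.dist_eq, sub_zero, abs_of_nonneg (by positivity)] at h1
  rw [Real.dist_eq, sub_zero, abs_of_nonneg (lam_nonneg ψ (hg N))]
  have h2 : lam ψ (g N) ≤ s N := hle_s N 0
  have h3 := hmain N
  have h4 := lam_le_norm ψ (hvn N)
  have h5 : 0 < (1 : ℝ) / 2 ^ N := by positivity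
  nlinarith

/-- bounded pointwise convergent sequences converge weakly -/
theorem weak_of_pointwise {g : ℕ → C(K, ℝ)} {f : C(K, ℝ)} {B : ℝ} (hB : ∀ n y, |g n y| ≤ B)
    (h : ∀ y, Tendsto (fun n => g n y) atTop (𝓝 (f y))) :
    Tendsto (fun n => ψ (g n)) atTop (𝓝 (ψ f)) := by
  have hfB : ∀ y, |f y| ≤ B := fun y =>
    le_of_tendsto ((continuous_abs.tendsto _).comp (h y)) (Eventually.of_forall fun n => hB n y)
  have h1 := lam_tendsto ψ (g := fun n => |g n - f|) (B := 2 * B)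
    (fun n y => by rw [ContinuousMap.abs_apply]; exact abs_nonneg _)
    (fun n y => by
      rw [ContinuousMap.abs_apply, ContinuousMap.sub_apply]
      calc |g n y - f y| ≤ |g n y| + |f y| := abs_sub _ _
        _ ≤ 2 * B := by linarith [hB n y, hfB y])
    (fun y => by
      have : Tendsto (fun n => |g n y - f y|) atTop (𝓝 |f y - f y|) :=
        (continuous_abs.tendsto _).comp ((h y).sub_const _)
      simpa using this)
  rw [tendsto_iff_norm_sub_tendsto_zero]
  refine squeeze_zero (fun n => norm_nonneg _) (fun n => ?_) h1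
  rw [Real.norm_eq_abs, ← map_sub]
  apply abs_le_lam
  intro y
  rw [ContinuousMap.abs_apply]

end Lam

end Pool.Agent.R192.WP
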