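import Mathlib
import Pool.Agent.R192.WP.Lam

/-!
Grothendieck: a bounded separately continuous kernel on a product of compact spaces gives a weakly
continuous map into the space of continuous functions.
-/

set_option autoImplicit false

open Filter Topology Set

namespace Pool.Agent.R192.WP

section Weak

variable {X K : Type*} [TopologicalSpace X] [CompactSpace X] [TopologicalSpace K] [CompactSpace K]

omit [TopologicalSpace X] [CompactSpace X] in
lemma exists_net (H : X → C(K, ℝ)) (A : Finset X) {δ : ℝ} (hδ : 0 < δ) :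
    ∃ D : Finset K, ∀ y, ∃ d ∈ D, ∀ x ∈ A, |H x y - H x d| ≤ δ := by
  classical
  have h1 : ∀ d : K, {y | ∀ x ∈ A, |H x y - H x d| < δ} ∈ 𝓝 d := by
    intro d
    have : ∀ᶠ y in 𝓝 d, ∀ x ∈ A, |H x y - H x d| < δ := by
      rw [Filter.eventually_all_finset]
      intro x _
      have h2 : Tendsto (fun y => |H x y - H x d|) (𝓝 d) (𝓝 |H x d - H x d|) :=
        (((H x).continuous.sub continuous_const).abs).tendsto d
      rw [sub_self, abs_zero] at h2
      exact h2.eventually_lt_const hδ
    exact this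
  obtain ⟨D, -, hD⟩ := isCompact_univ.elim_nhds_subcover
    (fun d : K => {y | ∀ x ∈ A, |H x y - H x d| < δ}) (fun d _ => h1 d)
  refine ⟨D, fun y => ?_⟩
  have := hD (mem_univ y)
  rw [mem_iUnion₂] at this
  obtain ⟨d, hd, hy⟩ := this
  exact ⟨d, hd, fun x hx => (hy x hx).le⟩

omit [CompactSpace X] [CompactSpace K] in
lemma exists_close (H : X → C(K, ℝ)) (hc : ∀ y, Continuous fun x => H x y) (x0 : X)
    (D : Finset K) {δ : ℝ} (hδ : 0 < δ) {P : X → Prop} (hP : ∃ᶠ x in 𝓝 x0, P x) :
    ∃ x, P x ∧ ∀ d ∈ D, |H x d - H x0 d| ≤ δ := by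
  have : ∀ᶠ x in 𝓝 x0, ∀ d ∈ D, |H x d - H x0 d| < δ := by
    rw [Filter.eventually_all_finset]
    intro d _
    have h2 : Tendsto (fun x => |H x d - H x0 d|) (𝓝 x0) (𝓝 |H x0 d - H x0 d|) :=
      (((hc d).sub continuous_const).abs).tendsto x0
    rw [sub_self, abs_zero] at h2
    exact h2.eventually_lt_const hδ
  obtain ⟨x, hx, hx2⟩ := (hP.and_eventually this).exists
  exact ⟨x, hx, fun d hd => (hx2 d hd).le⟩

/-- the recursion -/
noncomputable def st (dn : Finset X → ℕ → Finset K) (cn : Finset K → ℕ → X) (x0 : X) :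
    ℕ → Finset X × Finset K
  | 0 => ({x0}, ∅)
  | n + 1 => by
    classical
    exact
    (insert (cn ((st dn cn x0 n).2 ∪ dn (st dn cn x0 n).1 n) n) (st dn cn x0 n).1,
      (st dn cn x0 n).2 ∪ dn (st dn cn x0 n).1 n)

theorem weak_continuous (H : X → C(K, ℝ)) {B : ℝ} (hB : ∀ x y, |H x y| ≤ B)
    (hc : ∀ y, Continuous fun x => H x y) (ψ : C(K, ℝ) →L[ℝ] ℝ) :
    Continuous fun x => ψ (H x) := by
  classical
  rw [continuous_iff_continuousAt]
  intro x0
  by_contra hcon
  rw [ContinuousAt, Metric.tendsto_nhds] at hcon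
  push Not at hcon
  obtain ⟨ε, hε, hfr⟩ := hcon
  have hfr' : ∃ᶠ x in 𝓝 x0, ε ≤ |ψ (H x) - ψ (H x0)| := by
    refine hfr.mono fun x hx => ?_
    rwa [Real.dist_eq] at hx
  have hpos : ∀ n : ℕ, (0 : ℝ) < 1 / ((n : ℝ) + 1) := fun n => Nat.one_div_pos_of_nat
  choose dn hdn using fun (A : Finset X) (n : ℕ) => exists_net H A (hpos n)
  choose cn hcn1 hcn2 using fun (D : Finset K) (n : ℕ) => exists_close H hc x0 D (hpos n) hfr'
  set s : ℕ → Finset X × Finset K := st dn cn x0 with hs
  have hs2 : ∀ n, (s (n + 1)).2 = (s n).2 ∪ dn (s n).1 n := fun n => rfl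
  have hs1 : ∀ n, (s (n + 1)).1 = insert (cn (s (n + 1)).2 n) (s n).1 := fun n => rfl
  have hmono1 : Monotone fun n => (s n).1 := monotone_nat_of_le_succ fun n => by
    rw [hs1]; exact Finset.subset_insert _ _
  have hmono2 : Monotone fun n => (s n).2 := monotone_nat_of_le_succ fun n => by
    rw [hs2]; exact Finset.subset_union_left
  set x : ℕ → X := fun n => cn (s (n + 1)).2 n with hx
  have hx0mem : ∀ n, x0 ∈ (s n).1 := fun n => hmono1 (Nat.zero_le n) (by simp [hs, st])
  have hxmem : ∀ n k, n < k → x n ∈ (s k).1 := fun n k hnk =>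
    hmono1 (Nat.succ_le_of_lt hnk) (by
      show x n ∈ (s (n + 1)).1
      rw [hs1]; exact Finset.mem_insert_self _ _)
  have hinv : Tendsto (fun n : ℕ => (1 : ℝ) / ((n : ℝ) + 1)) atTop (𝓝 0) :=
    tendsto_one_div_add_atTop_nhds_zero_nat
  -- convergence on the dense set
  have hD : ∀ k, ∀ d ∈ (s k).2, Tendsto (fun n => H (x n) d) atTop (𝓝 (H x0 d)) := by
    intro k d hd
    rw [tendsto_iff_norm_sub_tendsto_zero]
    apply squeeze_zero' (Eventually.of_forall fun n => norm_nonneg _) _ hinv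
    filter_upwards [eventually_ge_atTop k] with n hn
    rw [Real.norm_eq_abs]
    exact hcn2 _ n d (hmono2 (show k ≤ n + 1 by omega) hd)
  -- convergence everywhere
  have hall : ∀ y, Tendsto (fun n => H (x n) y) atTop (𝓝 (H x0 y)) := by
    intro y
    rw [tendsto_iff_ultrafilter]
    intro U hU
    obtain ⟨xs, -, hxs⟩ := isCompact_univ.ultrafilter_le_nhds (U.map x) (by simp)
    have hxs' : Tendsto x U (𝓝 xs) := hxs
    have hlim : ∀ y', Tendsto (fun n => H (x n) y') U (𝓝 (H xs y')) := fun y' =>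
      ((hc y').tendsto xs).comp hxs'
    choose d hdm hd using fun k => hdn (s k).1 k y
    obtain ⟨ys, -, hys⟩ := isCompact_univ.ultrafilter_le_nhds (U.map d) (by simp)
    have hys' : Tendsto d U (𝓝 ys) := hys
    have hlim2 : ∀ x', Tendsto (fun n => H x' (d n)) U (𝓝 (H x' ys)) := fun x' =>
      ((H x').continuous.tendsto ys).comp hys'
    have e1 : ∀ x', (∀ᶠ k in atTop, x' ∈ (s k).1) → H x' ys = H x' y := by
      intro x' hx'
      have h1 : Tendsto (fun k => H x' (d k)) U (𝓝 (H x' y)) := by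
        refine Tendsto.mono_left ?_ hU
        rw [tendsto_iff_norm_sub_tendsto_zero]
        apply squeeze_zero' (Eventually.of_forall fun n => norm_nonneg _) _ hinv
        filter_upwards [hx'] with k hk
        rw [Real.norm_eq_abs, abs_sub_comm]
        exact hd k x' hk
      exact tendsto_nhds_unique (hlim2 x') h1
    have e2 : H x0 ys = H x0 y := e1 x0 (Eventually.of_forall hx0mem)
    have e3 : ∀ n, H (x n) ys = H (x n) y := fun n =>
      e1 (x n) ((eventually_gt_atTop n).mono fun k hk => hxmem n k hk)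
    have e4 : ∀ k, H xs (d k) = H x0 (d k) := by
      intro k
      refine tendsto_nhds_unique (hlim (d k)) ((hD (k + 1) (d k) ?_).mono_left hU)
      rw [hs2]
      exact Finset.mem_union_right _ (hdm k)
    have e5 : H xs ys = H x0 ys := by
      refine tendsto_nhds_unique (hlim2 xs) ?_
      simp_rw [e4]
      exact hlim2 x0
    have e6 : H xs ys = H xs y := by
      refine tendsto_nhds_unique (hlim ys) ?_
      simp_rw [e3]
      exact hlim y
    have e7 : H xs y = H x0 y := by rw [← e6, e5, e2]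
    rw [← e7]
    exact hlim y
  have hfin := weak_of_pointwise ψ (fun n y => hB (x n) y) hall
  rw [Metric.tendsto_atTop] at hfin
  obtain ⟨N, hN⟩ := hfin ε hε
  have h1 := hN N le_rfl
  rw [Real.dist_eq] at h1
  exact absurd h1 (not_lt.2 (hcn1 _ N))

end Weak

end Pool.Agent.R192.WP
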