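import Mathlib
import Pool.Agent.R192.WP.Weak
import Pool.Agent.R192.WP.Semi
import Pool.Agent.R192.WP.TB

/-!
Fixed points of nonexpansive quasi-equicontinuous actions whose enveloping semigroup carries a left
invariant mean.
-/

set_option autoImplicit false

open Filter Topology Set

namespace Pool.Agent.R192.WP

/-- an action by quasi-equicontinuous maps -/
structure Act (S X : Type*) [Semigroup S] [TopologicalSpace X] where
  T : S → X → X
  mul : ∀ s t, T (s * t) = T s ∘ T t
  cont : ∀ g ∈ closure (Set.range T), Continuous g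

section Env

variable {S X : Type*} [Semigroup S] [TopologicalSpace X] (A : Act S X)

/-- enveloping semigroup -/
def Act.Env (A : Act S X) : Type _ := {f : X → X // f ∈ closure (Set.range A.T)}

instance : TopologicalSpace A.Env := instTopologicalSpaceSubtype

/-- the generators -/
def Act.phi (A : Act S X) (s : S) : A.Env := ⟨A.T s, subset_closure ⟨s, rfl⟩⟩

lemma Act.T_cont (A : Act S X) (s : S) : Continuous (A.T s) := A.cont _ (A.phi s).2

lemma Act.comp_mem {f g : X → X} (hf : f ∈ closure (range A.T)) (hg : g ∈ closure (range A.T)) :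
    f ∘ g ∈ closure (range A.T) := by
  have h1 : ∀ s, A.T s ∘ g ∈ closure (range A.T) := by
    intro s
    have h2 : MapsTo (fun g : X → X => A.T s ∘ g) (closure (range A.T)) (closure (range A.T)) := by
      apply MapsTo.closure
      · rintro _ ⟨t, rfl⟩
        exact ⟨s * t, A.mul s t⟩
      · exact continuous_pi fun x => (A.T_cont s).comp (continuous_apply x)
    exact h2 hg
  have h3 : MapsTo (fun f : X → X => f ∘ g) (closure (range A.T))
      (closure (closure (range A.T))) := by
    apply MapsTo.closure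
    · rintro _ ⟨t, rfl⟩
      exact h1 t
    · exact continuous_pi fun x => continuous_apply (g x)
  rw [closure_closure] at h3
  exact h3 hf

instance : Semigroup A.Env where
  mul f g := ⟨f.1 ∘ g.1, A.comp_mem f.2 g.2⟩
  mul_assoc _ _ _ := rfl

lemma Act.mul_val (f g : A.Env) : (f * g).1 = f.1 ∘ g.1 := rfl

lemma Act.phi_mul (s t : S) : A.phi (s * t) = A.phi s * A.phi t := Subtype.ext (A.mul s t)

instance : SeparatelyContinuousMul A.Env where
  continuous_const_mul {a} := Continuous.subtype_mk (continuous_pi fun x =>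
    (A.cont a.1 a.2).comp ((continuous_apply x).comp continuous_subtype_val)) _
  continuous_mul_const {a} := by
    refine Continuous.subtype_mk (f := fun x : A.Env => x.1 ∘ a.1) ?_ _
    exact continuous_pi fun y => (continuous_apply (a.1 y)).comp continuous_subtype_val

instance [CompactSpace X] : CompactSpace A.Env :=
  isCompact_iff_compactSpace.1 isClosed_closure.isCompact

instance [T2Space X] : T2Space A.Env :=
  inferInstanceAs (T2Space {f : X → X // f ∈ closure (Set.range A.T)})

lemma Act.dense : DenseRange A.phi := by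
  intro f
  refine closure_subtype.2 ?_
  have : ((↑) : {f : X → X // f ∈ closure (Set.range A.T)} → X → X) '' (range A.phi) = range A.T := by
    ext g
    constructor
    · rintro ⟨_, ⟨s, rfl⟩, rfl⟩
      exact ⟨s, rfl⟩
    · rintro ⟨s, rfl⟩
      exact ⟨A.phi s, ⟨s, rfl⟩, rfl⟩
  have h2 : f.1 ∈ closure (((↑) : {f : X → X // f ∈ closure (Set.range A.T)} → X → X) ''
      (range A.phi)) := by
    rw [this]; exact f.2
  exact h2

lemma Act.invariant [CompactSpace X] (M : C(A.Env, ℝ) →L[ℝ] ℝ)
    (hM : ∀ s h, M (lt (A.phi s) h) = M h) (a : A.Env) (h : C(A.Env, ℝ)) :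
    M (lt a h) = M h := by
  have h1 : Continuous fun a : A.Env => M (lt a h) :=
    weak_continuous (fun a => lt a h) (B := ‖h‖)
      (fun a y => by
        rw [← Real.norm_eq_abs]
        exact h.norm_coe_le_norm _)
      (fun y => h.continuous.comp (continuous_mul_const y)) M
  have h2 : IsClosed {a : A.Env | M (lt a h) = M h} := isClosed_eq h1 continuous_const
  exact A.dense.induction_on (p := fun a => M (lt a h) = M h) a h2 (fun s => hM s h)

end Env

section Fixed

variable {𝕂 E : Type*} [RCLike 𝕂] [AddCommGroup E] [Module 𝕂 E] [Module ℝ E]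
  [IsScalarTower ℝ 𝕂 E] [TopologicalSpace E] [IsTopologicalAddGroup E] [ContinuousSMul 𝕂 E]
  [LocallyConvexSpace ℝ E] [T2Space (WeakSpace 𝕂 E)]
variable {S : Type*} [Semigroup S] {C : Set (WeakSpace 𝕂 E)}

/-- the invariant closed convex subsets -/
def Good (A : Act S C) : Set (Set (WeakSpace 𝕂 E)) :=
  {D | D ⊆ C ∧ D.Nonempty ∧ IsClosed D ∧ Convex ℝ D ∧ ∀ s, ∀ x : C, (x : WeakSpace 𝕂 E) ∈ D →
    (A.T s x : WeakSpace 𝕂 E) ∈ D}

lemma exists_minimal (A : Act S C) (hC : IsCompact C) (hconv : Convex ℝ C) (hne : C.Nonempty) :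
    ∃ D, Minimal (· ∈ Good A) D := by
  apply zorn_superset
  intro c hc hchain
  rcases c.eq_empty_or_nonempty with h | h
  · subst h
    exact ⟨C, ⟨Subset.rfl, hne, hC.isClosed, hconv, fun s x _ => (A.T s x).2⟩, by simp⟩
  · refine ⟨⋂₀ c, ⟨?_, ?_, ?_, ?_, ?_⟩, fun s hs => sInter_subset_of_mem hs⟩
    · obtain ⟨D, hD⟩ := h
      exact (sInter_subset_of_mem hD).trans (hc hD).1
    · haveI : Nonempty c := h.to_subtype
      apply IsCompact.nonempty_sInter_of_directed_nonempty_isCompact_isClosed
      · intro D hD D' hD'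
        rcases hchain.total hD hD' with h | h
        · exact ⟨D, hD, Subset.rfl, h⟩
        · exact ⟨D', hD', h, Subset.rfl⟩
      · exact fun D hD => (hc hD).2.1
      · exact fun D hD => hC.of_isClosed_subset (hc hD).2.2.1 (hc hD).1
      · exact fun D hD => (hc hD).2.2.1
    · exact isClosed_sInter fun D hD => (hc hD).2.2.1
    · exact convex_sInter fun D hD => (hc hD).2.2.2.1
    · intro s x hx D hD
      exact (hc hD).2.2.2.2 s x (hx D hD)

lemma env_mem (A : Act S C) {D : Set (WeakSpace 𝕂 E)} (hD : D ∈ Good A) (f : A.Env) (x : C)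
    (hx : (x : WeakSpace 𝕂 E) ∈ D) : (f.1 x : WeakSpace 𝕂 E) ∈ D := by
  have h1 : Continuous fun f : A.Env => (f.1 x : WeakSpace 𝕂 E) :=
    continuous_subtype_val.comp ((continuous_apply x).comp continuous_subtype_val)
  exact A.dense.induction_on (p := fun f : A.Env => (f.1 x : WeakSpace 𝕂 E) ∈ D) f
    (hD.2.2.1.preimage h1) (fun s => hD.2.2.2.2 s x hx)

lemma env_nonexp (A : Act S C) (q : Seminorm ℝ E) (hq : Continuous q)
    (hn : ∀ s (x y : C), q (fr (A.T s x : WeakSpace 𝕂 E) - fr (A.T s y : WeakSpace 𝕂 E)) ≤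
      q (fr (x : WeakSpace 𝕂 E) - fr (y : WeakSpace 𝕂 E))) (f : A.Env) (x y : C) :
    q (fr (f.1 x : WeakSpace 𝕂 E) - fr (f.1 y : WeakSpace 𝕂 E)) ≤
      q (fr (x : WeakSpace 𝕂 E) - fr (y : WeakSpace 𝕂 E)) := by
  have h1 : ∀ x : C, Continuous fun f : A.Env => (f.1 x : WeakSpace 𝕂 E) := fun x =>
    continuous_subtype_val.comp ((continuous_apply x).comp continuous_subtype_val)
  have h2 : IsClosed {f : A.Env | q (fr (f.1 x : WeakSpace 𝕂 E) - fr (f.1 y : WeakSpace 𝕂 E)) ≤
      q (fr (x : WeakSpace 𝕂 E) - fr (y : WeakSpace 𝕂 E))} := by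
    have h3 := (isClosed_weak_ball (𝕂 := 𝕂) q hq 0
      (q (fr (x : WeakSpace 𝕂 E) - fr (y : WeakSpace 𝕂 E)))).preimage ((h1 x).sub (h1 y))
    convert h3 using 1
    ext f
    simp [fr]
  exact A.dense.induction_on (p := fun f : A.Env =>
    q (fr (f.1 x : WeakSpace 𝕂 E) - fr (f.1 y : WeakSpace 𝕂 E)) ≤
      q (fr (x : WeakSpace 𝕂 E) - fr (y : WeakSpace 𝕂 E))) f h2 (fun s => hn s x y)

theorem fixed_point {ι : Type*} (q : ι → Seminorm ℝ E) (hq : ∀ i, Continuous (q i))
    (hsep : ∀ v : E, (∀ i, q i v = 0) → v = 0)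
    (A : Act S C) (hC : IsCompact C) (hconv : Convex ℝ C) (hne : C.Nonempty)
    (hn : ∀ i s (x y : C), q i (fr (A.T s x : WeakSpace 𝕂 E) - fr (A.T s y : WeakSpace 𝕂 E)) ≤
      q i (fr (x : WeakSpace 𝕂 E) - fr (y : WeakSpace 𝕂 E)))
    (M : C(A.Env, ℝ) →L[ℝ] ℝ) (h1 : M 1 = 1) (hM : ∀ s h, M (lt (A.phi s) h) = M h) :
    ∃ x : C, ∀ s, A.T s x = x := by
  classical
  have : CompactSpace C := isCompact_iff_compactSpace.1 hC
  have : Nonempty A.Env := by
    by_contra hcon
    rw [not_nonempty_iff] at hcon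
    have h2 : (1 : C(A.Env, ℝ)) = 0 := by
      ext x
      exact isEmptyElim x
    rw [h2, map_zero] at h1
    exact one_ne_zero h1.symm
  obtain ⟨e, hee, hef, hinv⟩ := exists_idem (G := A.Env) (fun R R' hR hR' =>
    inter_nonempty M h1 (A.invariant M hM) hR hR')
  letI : Group (Lid e) := lidGroup e hee hinv
  letI : TopologicalSpace (Lid e) := instTopologicalSpaceSubtype
  have : T2Space (Lid e) := inferInstanceAs (T2Space {f : A.Env // f * e = f})
  have : CompactSpace (Lid e) := by
    have h2 : IsClosed {f : A.Env | f * e = f} := isClosed_eq (continuous_mul_const e) continuous_id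
    exact isCompact_iff_compactSpace.1 h2.isCompact
  have : SeparatelyContinuousMul (Lid e) :=
    { continuous_const_mul := by
        intro a
        refine Continuous.subtype_mk (f := fun x : Lid e => a.1 * x.1) ?_ _
        exact (continuous_const_mul a.1).comp continuous_subtype_val
      continuous_mul_const := by
        intro a
        refine Continuous.subtype_mk (f := fun x : Lid e => x.1 * a.1) ?_ _
        exact (continuous_mul_const a.1).comp continuous_subtype_val }
  obtain ⟨D, hD⟩ := exists_minimal A hC hconv hne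
  have hDG : D ∈ Good A := hD.prop
  obtain ⟨w0, hw0⟩ := hDG.2.1
  let x0 : C := ⟨w0, hDG.1 hw0⟩
  let o : Lid e → WeakSpace 𝕂 E := fun f => (f.1.1 x0 : WeakSpace 𝕂 E)
  have ho : Continuous o := continuous_subtype_val.comp
    ((continuous_apply x0).comp (continuous_subtype_val.comp continuous_subtype_val))
  have hoD : ∀ f, o f ∈ D := fun f => env_mem A hDG f.1 x0 hw0
  have hiso1 : ∀ i (g a b : Lid e), q i (fr (o (g * a)) - fr (o (g * b))) ≤
      q i (fr (o a) - fr (o b)) := fun i g a b =>
    env_nonexp A (q i) (hq i) (hn i) g.1 (a.1.1 x0) (b.1.1 x0)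
  have hiso : ∀ i (g a b : Lid e), q i (fr (o (g * a)) - fr (o (g * b))) =
      q i (fr (o a) - fr (o b)) := by
    intro i g a b
    apply le_antisymm (hiso1 i g a b)
    have := hiso1 i g⁻¹ (g * a) (g * b)
    rwa [inv_mul_cancel_left, inv_mul_cancel_left] at this
  let ph : S → Lid e := fun s => ⟨A.phi s * e, by rw [mul_assoc, hee]⟩
  have hT : ∀ s (f : Lid e), ∃ f' : Lid e, A.T s (f'.1.1 x0) = f.1.1 x0 := by
    intro s f
    refine ⟨(ph s)⁻¹ * f, ?_⟩
    set f' : Lid e := (ph s)⁻¹ * f with hf'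
    have h2 : ph s * f' = f := by rw [hf', mul_inv_cancel_left]
    have h3 : A.phi s * e * f'.1 = f.1 := congrArg Subtype.val h2
    have h4 : e * f'.1 = f'.1 := by
      have := hef f'.1
      rwa [f'.2] at this
    rw [mul_assoc, h4] at h3
    rw [← h3]
    rfl
  have key : ∀ i (a b : Lid e), q i (fr (o a) - fr (o b)) = 0 := by
    intro i a1 b1
    by_contra hcon
    let g : Lid e × Lid e → ℝ := fun p => q i (fr (o p.1) - fr (o p.2))
    have htri : ∀ x y z : E, q i (x - z) ≤ q i (x - y) + q i (y - z) := by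
      intro x y z
      have := map_add_le_add (q i) (x - y) (y - z)
      rwa [sub_add_sub_cancel] at this
    have hbdd : BddAbove (range g) := by
      obtain ⟨F, hF⟩ := tot_bdd (q i) (hq i) o ho (hiso i) one_pos
      refine ⟨1 + (∑ a ∈ F, ∑ b ∈ F, q i (fr (o a) - fr (o b)) + 1), ?_⟩
      rintro _ ⟨⟨a, b⟩, rfl⟩
      obtain ⟨a', ha', haa⟩ := hF a
      obtain ⟨b', hb', hbb⟩ := hF b
      have h2 := htri (fr (o a)) (fr (o a')) (fr (o b))
      have h3 := htri (fr (o a')) (fr (o b')) (fr (o b))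
      have h4 : q i (fr (o a') - fr (o b')) ≤ ∑ a ∈ F, ∑ b ∈ F, q i (fr (o a) - fr (o b)) := by
        refine le_trans ?_ (Finset.single_le_sum (f := fun a => ∑ b ∈ F, q i (fr (o a) - fr (o b)))
          (fun x _ => Finset.sum_nonneg fun y _ => apply_nonneg _ _) ha')
        exact Finset.single_le_sum (f := fun b => q i (fr (o a') - fr (o b)))
          (fun x _ => apply_nonneg _ _) hb'
      rw [map_sub_rev (q i) (fr (o b)) (fr (o b'))] at hbb
      show q i (fr (o a) - fr (o b)) ≤ _
      linarith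
    set d : ℝ := ⨆ p, g p with hd
    have hgd : ∀ a b, q i (fr (o a) - fr (o b)) ≤ d := fun a b => le_ciSup hbdd (a, b)
    have hdpos : 0 < d :=
      lt_of_lt_of_le (lt_of_le_of_ne (apply_nonneg _ _) (Ne.symm hcon)) (hgd a1 b1)
    obtain ⟨F, hF⟩ := tot_bdd (q i) (hq i) o ho (hiso i) (half_pos hdpos)
    have hFne : F.Nonempty := by
      obtain ⟨b, hb, -⟩ := hF 1
      exact ⟨b, hb⟩
    have hn0 : (0 : ℝ) < F.card := by exact_mod_cast hFne.card_pos
    set n : ℝ := (F.card : ℝ) with hndef
    let u : WeakSpace 𝕂 E := ∑ b ∈ F, (1 / n) • o b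
    have hsum1 : ∑ b ∈ F, (1 / n) = 1 := by
      rw [Finset.sum_const, nsmul_eq_mul, ← hndef]
      field_simp
    have huD : u ∈ D := hDG.2.2.2.1.sum_mem (fun _ _ => by positivity) hsum1 (fun b _ => hoD b)
    have hfru : fr u = ∑ b ∈ F, (1 / n) • fr (o b) := by
      show (toWeakSpace 𝕂 E).symm (∑ b ∈ F, (1 / n) • o b) = _
      rw [map_sum]
      rfl
    set r : ℝ := d - d / (2 * n) with hr
    have hrd : r < d := by
      have : 0 < d / (2 * n) := by positivity
      linarith
    have hur : ∀ a, q i (fr u - fr (o a)) ≤ r := by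
      intro a
      obtain ⟨b0, hb0, hab⟩ := hF a
      have h2 : fr u - fr (o a) = ∑ b ∈ F, (1 / n) • (fr (o b) - fr (o a)) := by
        simp_rw [smul_sub]
        rw [Finset.sum_sub_distrib, ← hfru, ← Finset.sum_smul, hsum1, one_smul]
      rw [h2]
      have h3 : q i (∑ b ∈ F, (1 / n) • (fr (o b) - fr (o a))) ≤
          ∑ b ∈ F, q i ((1 / n) • (fr (o b) - fr (o a))) :=
        Finset.le_sum_of_subadditive (q i) (map_zero (q i)).le (fun x y => map_add_le_add _ x y) F _
      refine h3.trans ?_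
      have h4 : ∀ b, q i ((1 / n) • (fr (o b) - fr (o a))) =
          (1 / n) * q i (fr (o b) - fr (o a)) := by
        intro b
        rw [map_smul_eq_mul, Real.norm_of_nonneg (by positivity)]
      simp_rw [h4]
      rw [← Finset.mul_sum, ← Finset.add_sum_erase F _ hb0]
      have h5 : ∑ b ∈ F.erase b0, q i (fr (o b) - fr (o a)) ≤ (n - 1) * d := by
        have h6 : ∑ b ∈ F.erase b0, q i (fr (o b) - fr (o a)) ≤ ∑ b ∈ F.erase b0, d :=
          Finset.sum_le_sum fun b _ => hgd b a
        rw [Finset.sum_const, Finset.card_erase_of_mem hb0, nsmul_eq_mul,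
          Nat.cast_sub hFne.card_pos, Nat.cast_one, ← hndef] at h6
        exact h6
      rw [map_sub_rev] at hab
      have h7 : (1 / n) * (q i (fr (o b0) - fr (o a)) +
          ∑ b ∈ F.erase b0, q i (fr (o b) - fr (o a))) ≤ (1 / n) * (d / 2 + (n - 1) * d) := by
        apply mul_le_mul_of_nonneg_left _ (by positivity)
        linarith
      refine h7.trans (le_of_eq ?_)
      rw [hr]
      field_simp
      ring
    let D1 : Set (WeakSpace 𝕂 E) := D ∩ ⋂ a : Lid e, {w | q i (fr w - fr (o a)) ≤ r}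
    have hD1 : D1 ∈ Good A := by
      refine ⟨inter_subset_left.trans hDG.1, ⟨u, huD, mem_iInter.2 hur⟩, ?_, ?_, ?_⟩
      · exact hDG.2.2.1.inter (isClosed_iInter fun a => isClosed_weak_ball (q i) (hq i) _ _)
      · exact hDG.2.2.2.1.inter (convex_iInter fun a => (q i).convex_closedBall (fr (o a)) r)
      · intro s x hx
        refine ⟨hDG.2.2.2.2 s x hx.1, mem_iInter.2 fun a => ?_⟩
        obtain ⟨f', hf'⟩ := hT s a
        have h2 := hn i s x (f'.1.1 x0)
        rw [hf'] at h2
        exact h2.trans (mem_iInter.1 hx.2 f')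
    have hle : D ⊆ D1 := hD.2 hD1 inter_subset_left
    have hdr : d ≤ r := by
      have : Nonempty (Lid e × Lid e) := ⟨(1, 1)⟩
      apply ciSup_le
      rintro ⟨a, b⟩
      exact mem_iInter.1 (hle (hoD a)).2 b
    linarith
  have hoo : ∀ a b : Lid e, a.1.1 x0 = b.1.1 x0 := by
    intro a b
    apply Subtype.ext
    have h2 : fr (o a) - fr (o b) = 0 := hsep _ fun i => key i a b
    exact (toWeakSpace 𝕂 E).symm.injective (sub_eq_zero.1 h2)
  refine ⟨e.1 x0, fun s => ?_⟩
  exact hoo (ph s) 1

end Fixed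

end Pool.Agent.R192.WP
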